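import Pool.Agent.H174.GP.StD

set_option autoImplicit false

open MeasureTheory ProbabilityTheory Finset Filter Topology

namespace Pool.Agent.H457.GP174

open Pool.Agent.H174.GP

/-- The weighted sum as an integer. -/
noncomputable def XX (d : ℕ) (σ : ℝ) (ω : ℕ → ℝ) : ℤ :=
  ∑ j ∈ Finset.Icc 1 d, (j : ℤ) * (gs σ ω j : ℤ)

theorem gs_meas (σ : ℝ) (j : ℕ) : Measurable fun ω : ℕ → ℝ => gs σ ω j := by
  unfold gs
  exact Nat.measurable_floor.comp
    (((measurable_pi_apply j).norm).div_const (σ * (j : ℝ)))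

theorem XX_meas (d : ℕ) (σ : ℝ) : Measurable (XX d σ) := by
  unfold XX
  refine Finset.measurable_sum _ fun j _ => ?_
  refine Measurable.const_mul ?_ _
  exact (measurable_from_top (f := fun n : ℕ => (n : ℤ))).comp (gs_meas σ j)

theorem XX_nonneg (d : ℕ) (σ : ℝ) (ω : ℕ → ℝ) : 0 ≤ XX d σ ω := by
  unfold XX
  exact Finset.sum_nonneg fun j _ => mul_nonneg (Int.natCast_nonneg _) (Int.natCast_nonneg _)

theorem aa_eq (h1 : S_aalaw) (d : ℕ) (σ : ℝ) (m : ℤ) (hσ : 0 < σ) :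
    aa d (σ / 2) m = PP.real {ω | XX d σ ω = m} := by
  rw [h1 d (σ / 2) m (by linarith)]
  congr 1
  ext ω
  simp only [Set.mem_setOf_eq, XX, gs]
  have e : (∑ j ∈ Finset.Icc 1 d, (j : ℤ) * ⌊|ω j| / (2 * (σ / 2) * j)⌋) =
      ∑ j ∈ Finset.Icc 1 d, (j : ℤ) * (⌊|ω j| / (σ * j)⌋₊ : ℤ) := by
    refine Finset.sum_congr rfl fun j _ => ?_
    have e1 : 2 * (σ / 2) * (j : ℝ) = σ * j := by ring
    rw [e1, Int.natCast_floor_eq_floor (by positivity)]
  rw [e]

theorem gp_a2law (h1 : S_aalaw) : Pool.Agent.H174.GP.S_a2law := by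
  intro d σ m hσ
  have hset : {p : (ℕ → ℝ) × (ℕ → ℝ) | (∑ j ∈ Finset.Icc 1 d,
      (j : ℤ) * ((gs σ p.1 j : ℤ) + (gs σ p.2 j : ℤ))) = m} =
      {p | XX d σ p.1 + XX d σ p.2 = m} := by
    ext p
    simp only [Set.mem_setOf_eq, XX, ← Finset.sum_add_distrib, mul_add]
  rw [hset]
  have hms : ∀ k : ℤ, MeasurableSet {ω | XX d σ ω = k} := fun k =>
    (XX_meas d σ) (measurableSet_singleton k)
  unfold a2
  split_ifs with hm
  · have hun : {p : (ℕ → ℝ) × (ℕ → ℝ) | XX d σ p.1 + XX d σ p.2 = m} =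
        ⋃ j ∈ Finset.range (m.toNat + 1),
          ({ω | XX d σ ω = (j : ℤ)} ×ˢ {ω | XX d σ ω = m - (j : ℤ)}) := by
      ext p
      simp only [Set.mem_setOf_eq, Set.mem_iUnion, Set.mem_prod, Finset.mem_range]
      constructor
      · intro h
        have h2 := XX_nonneg d σ p.1
        have h3 := XX_nonneg d σ p.2
        exact ⟨(XX d σ p.1).toNat, by omega, by omega, by omega⟩
      · rintro ⟨j, hj, h2, h3⟩
        omega
    rw [hun, measureReal_biUnion_finset]
    · refine Finset.sum_congr rfl fun j _ => ?_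
      rw [measureReal_prod_prod, aa_eq h1 d σ _ hσ, aa_eq h1 d σ _ hσ]
    · intro i _ j _ hij
      rw [Function.onFun, Set.disjoint_left]
      rintro p ⟨h2, -⟩ ⟨h3, -⟩
      simp only [Set.mem_setOf_eq] at h2 h3
      exact hij (by omega)
    · intro j _
      exact (hms _).prod (hms _)
  · have hem : {p : (ℕ → ℝ) × (ℕ → ℝ) | XX d σ p.1 + XX d σ p.2 = m} = ∅ := by
      ext p
      simp only [Set.mem_setOf_eq, Set.mem_empty_iff_false, iff_false]
      intro h
      have h2 := XX_nonneg d σ p.1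
      have h3 := XX_nonneg d σ p.2
      omega
    rw [hem, measureReal_empty]

end Pool.Agent.H457.GP174
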